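import Pool.Agent.R972.OP.Stm4
import Pool.Agent.Y333.RG.Reg

/-! # OP3-ILC: passage from smooth log-concave densities to all log-concave densities -/

set_option autoImplicit false

namespace Pool.Agent.R62.OPL

open MeasureTheory Set Filter Topology
open scoped ENNReal InnerProductSpace
open Pool.Agent.W695.KH (Eu Sm)
open Pool.Agent.Y506.RG (EW VW LC1 GD)
open Pool.Agent.R972.OP

variable {n : ℕ}

theorem ae_coord {p : ℝ → Prop} (h : ∀ᵐ s, p s) : ∀ᵐ x : Eu (Fin n), ∀ i, p (x i) := by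
  rw [ae_all_iff]
  intro i
  have h1 : Measure.QuasiMeasurePreserving (fun x : Eu (Fin n) => x i) volume volume :=
    (Measure.quasiMeasurePreserving_eval (fun _ : Fin n => (volume : Measure ℝ)) i).comp
      (PiLp.volume_preserving_ofLp (Fin n)).quasiMeasurePreserving
  exact h1.ae h

theorem int_prod {D : ℝ → ℝ} (hD : Integrable D) :
    Integrable (fun x : Eu (Fin n) => ∏ i, D (x i)) := by
  have h1 : Integrable (fun x : Fin n → ℝ => ∏ i, D (x i)) :=
    Integrable.fintype_prod (fun _ => hD)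
  exact (PiLp.volume_preserving_ofLp (Fin n)).integrable_comp_of_integrable h1

theorem meas_coord (i : Fin n) : Measurable (fun x : Eu (Fin n) => x i) := by
  fun_prop

theorem meas_Cn (R : Fin n → Fin n → Prop) : MeasurableSet (Cn R) := by
  have : Cn R = ⋂ i, ⋂ j, {x : Eu (Fin n) | R i j → x i ≤ x j} := by
    ext x
    simp [Cn]
  rw [this]
  refine MeasurableSet.iInter fun i => MeasurableSet.iInter fun j => ?_
  by_cases h : R i j
  · have h2 : {x : Eu (Fin n) | R i j → x i ≤ x j} = {x | x i ≤ x j} := by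
      ext x; simp [h]
    rw [h2]
    exact measurableSet_le (meas_coord i) (meas_coord j)
  · have h2 : {x : Eu (Fin n) | R i j → x i ≤ x j} = univ := by
      ext x; simp [h]
    rw [h2]
    exact MeasurableSet.univ

theorem meas_wR (R : Fin n → Fin n → Prop) {h : ℝ → ℝ} (hm : Measurable h) :
    Measurable (wR R h) := by
  have h1 : Measurable (fun y : Eu (Fin n) => ∏ i, h (y i)) :=
    Finset.measurable_prod _ fun i _ => hm.comp (meas_coord i)
  exact h1.indicator (meas_Cn R)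

theorem wR_nonneg (R : Fin n → Fin n → Prop) {h : ℝ → ℝ} (h0 : ∀ s, 0 ≤ h s) (x : Eu (Fin n)) :
    0 ≤ wR R h x :=
  indicator_nonneg (fun y _ => Finset.prod_nonneg fun i _ => h0 _) x

theorem wR_le (R : Fin n → Fin n → Prop) {h D : ℝ → ℝ} (h0 : ∀ s, 0 ≤ h s)
    (hD : ∀ s, h s ≤ D s) (x : Eu (Fin n)) : wR R h x ≤ ∏ i, D (x i) := by
  have hDn : ∀ s, 0 ≤ D s := fun s => (h0 s).trans (hD s)
  by_cases hx : x ∈ Cn R
  · show (Cn R).indicator (fun y => ∏ i, h (y i)) x ≤ _
    rw [indicator_of_mem hx]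
    exact Finset.prod_le_prod (fun i _ => h0 _) fun i _ => hD _
  · show (Cn R).indicator (fun y => ∏ i, h (y i)) x ≤ _
    rw [indicator_of_notMem hx]
    exact Finset.prod_nonneg fun i _ => hDn _

/-- the hypotheses of the limit lemma -/
structure Dm (H : ℕ → ℝ → ℝ) (h D : ℝ → ℝ) : Prop where
  hm : Measurable h
  Hm : ∀ j, Measurable (H j)
  H0 : ∀ j s, 0 ≤ H j s
  h0 : ∀ s, 0 ≤ h s
  HD : ∀ j s, H j s ≤ D s
  i0 : Integrable D
  i2 : Integrable (fun s => (1 + s ^ 2) * D s)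
  lim : ∀ᵐ s, Tendsto (fun j => H j s) atTop (𝓝 (h s))

section

variable {H : ℕ → ℝ → ℝ} {h D : ℝ → ℝ}

theorem Dm.D0 (hd : Dm H h D) (s : ℝ) : 0 ≤ D s := (hd.H0 0 s).trans (hd.HD 0 s)

theorem lim_int (hd : Dm H h D) (R : Fin n → Fin n → Prop) (v : Eu (Fin n) → ℝ)
    (hv : Continuous v) (B : ℝ) (hB : ∀ x, |v x| ≤ B) :
    Tendsto (fun j => ∫ x, v x * wR R (H j) x) atTop (𝓝 (∫ x, v x * wR R h x)) := by
  refine tendsto_integral_of_dominated_convergence (fun x => B * ∏ i, D (x i)) ?_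
    ((int_prod hd.i0).const_mul B) ?_ ?_
  · intro j
    exact (hv.measurable.mul (meas_wR R (hd.Hm j))).aestronglyMeasurable
  · intro j
    refine Filter.Eventually.of_forall fun x => ?_
    rw [norm_mul, Real.norm_eq_abs, Real.norm_of_nonneg (wR_nonneg R (hd.H0 j) x)]
    exact mul_le_mul (hB x) (wR_le R (hd.H0 j) (hd.HD j) x) (wR_nonneg R (hd.H0 j) x)
      ((abs_nonneg _).trans (hB x))
  · filter_upwards [ae_coord (n := n) hd.lim] with x hx
    refine Tendsto.const_mul _ ?_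
    by_cases hxR : x ∈ Cn R
    · have e1 : ∀ g : ℝ → ℝ, wR R g x = ∏ i, g (x i) := fun g => indicator_of_mem hxR _
      simp only [e1]
      exact tendsto_finsetProd _ fun i _ => hx i
    · have e1 : ∀ g : ℝ → ℝ, wR R g x = 0 := fun g => indicator_of_notMem hxR _
      simp only [e1]
      exact tendsto_const_nhds

theorem lim_mass (hd : Dm H h D) (R : Fin n → Fin n → Prop) :
    Tendsto (fun j => ∫ x, wR R (H j) x) atTop (𝓝 (∫ x, wR R h x)) := by
  have := lim_int hd R (fun _ => 1) continuous_const 1 (fun _ => by simp)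
  simpa using this

theorem lim_EW (hd : Dm H h D) (R : Fin n → Fin n → Prop) (hpos : 0 < ∫ x, wR R h x)
    (v : Eu (Fin n) → ℝ) (hv : Continuous v) (B : ℝ) (hB : ∀ x, |v x| ≤ B) :
    Tendsto (fun j => EW (wR R (H j)) v) atTop (𝓝 (EW (wR R h) v)) :=
  (lim_int hd R v hv B hB).div (lim_mass hd R) hpos.ne'

theorem lim_one (hd : Dm H h D) (v : ℝ → ℝ) (hv : Continuous v) (hB : ∀ s, |v s| ≤ 1 + s ^ 2) :
    Tendsto (fun j => ∫ s, v s * H j s) atTop (𝓝 (∫ s, v s * h s)) := by
  refine tendsto_integral_of_dominated_convergence (fun s => (1 + s ^ 2) * D s) ?_ hd.i2 ?_ ?_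
  · intro j
    exact (hv.measurable.mul (hd.Hm j)).aestronglyMeasurable
  · intro j
    refine Filter.Eventually.of_forall fun s => ?_
    rw [norm_mul, Real.norm_eq_abs, Real.norm_of_nonneg (hd.H0 j s)]
    exact mul_le_mul (hB s) (hd.HD j s) (hd.H0 j s) (by positivity)
  · filter_upwards [hd.lim] with s hs
    exact hs.const_mul _

theorem lim_vh (hd : Dm H h D) (hpos : 0 < ∫ s, h s) :
    Tendsto (fun j => vh (H j)) atTop (𝓝 (vh h)) := by
  have h0 : Tendsto (fun j => ∫ s, H j s) atTop (𝓝 (∫ s, h s)) := by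
    have := lim_one hd (fun _ => 1) continuous_const (fun s => by
      rw [abs_one]; nlinarith [sq_nonneg s])
    simpa using this
  have h1 : Tendsto (fun j => ∫ s, s * H j s) atTop (𝓝 (∫ s, s * h s)) :=
    lim_one hd (fun s => s) continuous_id (fun s => by
      rw [abs_le]; constructor <;> nlinarith [sq_nonneg (s - 1), sq_nonneg (s + 1)])
  have h2 : Tendsto (fun j => ∫ s, s ^ 2 * H j s) atTop (𝓝 (∫ s, s ^ 2 * h s)) :=
    lim_one hd (fun s => s ^ 2) (by fun_prop) (fun s => by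
      rw [abs_of_nonneg (sq_nonneg s)]; linarith)
  exact (h2.div h0 hpos.ne').sub ((h1.div h0 hpos.ne').pow 2)

/-- **limits** -/
theorem limit (hd : Dm H h D) (R : Fin n → Fin n → Prop) (hpos : 0 < ∫ x, wR R h x)
    (hp1 : 0 < ∫ s, h s) (K : ℝ) (f : Eu (Fin n) → ℝ) (L M : ℝ) (hf : Sm f L M)
    (hev : ∀ᶠ j in atTop, VW (wR R (H j)) f ≤ K * Real.sqrt (vh (H j)) *
      EW (wR R (H j)) fun x => ‖fderiv ℝ f x‖) :
    VW (wR R h) f ≤ K * Real.sqrt (vh h) * EW (wR R h) fun x => ‖fderiv ℝ f x‖ := by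
  have hfc : Continuous f := hf.diff.continuous
  have hfd : Continuous (fun x => ‖fderiv ℝ f x‖) :=
    (hf.diff.continuous_fderiv one_ne_zero).norm
  have t1 := lim_EW hd R hpos f hfc 1 hf.bdd
  have t2 := lim_EW hd R hpos (fun x => f x ^ 2) (hfc.pow 2) 1 (fun x => by
    rw [abs_pow]
    exact pow_le_one₀ (abs_nonneg _) (hf.bdd x))
  have t3 := lim_EW hd R hpos (fun x => ‖fderiv ℝ f x‖) hfd L (fun x => by
    rw [abs_norm]; exact hf.grad x)
  have t4 := (Real.continuous_sqrt.tendsto _).comp (lim_vh hd hp1)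
  have t5 : Tendsto (fun j => VW (wR R (H j)) f) atTop (𝓝 (VW (wR R h) f)) :=
    t2.sub (t1.pow 2)
  have t6 : Tendsto (fun j => K * Real.sqrt (vh (H j)) *
      EW (wR R (H j)) fun x => ‖fderiv ℝ f x‖) atTop
      (𝓝 (K * Real.sqrt (vh h) * EW (wR R h) fun x => ‖fderiv ℝ f x‖)) :=
    (t4.const_mul K).mul t3
  exact le_of_tendsto_of_tendsto t5 t6 hev

end

theorem cont_GD {h : ℝ → ℝ} (hh : GD h) : Continuous h := by
  obtain ⟨V', A, -, hV, -⟩ := hh.pot
  have h1 : Continuous (fun s => -Real.log (h s)) :=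
    continuous_iff_continuousAt.2 fun s => (hV s).continuousAt
  have h2 : h = fun s => Real.exp (-(-Real.log (h s))) := by
    funext s
    rw [neg_neg, Real.exp_log (hh.pos s)]
  rw [h2]
  exact Real.continuous_exp.comp h1.neg

theorem dom_bound (K R s : ℝ) (hK : 0 < K) :
    (1 + s ^ 2) * (K * Real.exp (-(max 0 (|s| - R)) ^ 2 / 2)) ≤
      (8 * K * Real.exp (R ^ 2 / 2)) * Real.exp (-(1 / 8) * s ^ 2) := by
  have h2 : -(max 0 (|s| - R)) ^ 2 / 2 ≤ R ^ 2 / 2 - s ^ 2 / 4 := by
    have h3 : |s| ≤ max 0 (|s| - R) + |R| := by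
      have := le_max_right 0 (|s| - R)
      have := le_abs_self R
      linarith
    have h4 : s ^ 2 ≤ (max 0 (|s| - R) + |R|) ^ 2 := by
      rw [← sq_abs s]
      exact pow_le_pow_left₀ (abs_nonneg _) h3 2
    nlinarith [sq_nonneg (max 0 (|s| - R) - |R|), sq_abs R]
  have h5 : Real.exp (-(max 0 (|s| - R)) ^ 2 / 2) ≤
      Real.exp (R ^ 2 / 2) * (Real.exp (-(1 / 8) * s ^ 2) * Real.exp (-(1 / 8) * s ^ 2)) := by
    rw [← Real.exp_add, ← Real.exp_add]
    apply Real.exp_le_exp.2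
    linarith
  have h6 : 1 + s ^ 2 ≤ 8 * Real.exp (1 / 8 * s ^ 2) := by
    have := Real.add_one_le_exp (1 / 8 * s ^ 2)
    nlinarith [sq_nonneg s]
  have h7 : Real.exp (1 / 8 * s ^ 2) * Real.exp (-(1 / 8) * s ^ 2) = 1 := by
    rw [← Real.exp_add]
    have : 1 / 8 * s ^ 2 + -(1 / 8) * s ^ 2 = 0 := by ring
    rw [this, Real.exp_zero]
  calc (1 + s ^ 2) * (K * Real.exp (-(max 0 (|s| - R)) ^ 2 / 2))
      ≤ (8 * Real.exp (1 / 8 * s ^ 2)) * (K * (Real.exp (R ^ 2 / 2) *
        (Real.exp (-(1 / 8) * s ^ 2) * Real.exp (-(1 / 8) * s ^ 2)))) := by gcongr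
    _ = (8 * K * Real.exp (R ^ 2 / 2)) * ((Real.exp (1 / 8 * s ^ 2) *
        Real.exp (-(1 / 8) * s ^ 2)) * Real.exp (-(1 / 8) * s ^ 2)) := by ring
    _ = (8 * K * Real.exp (R ^ 2 / 2)) * Real.exp (-(1 / 8) * s ^ 2) := by rw [h7, one_mul]

theorem int_gauss (C : ℝ) : Integrable (fun s : ℝ => C * Real.exp (-(1 / 8) * s ^ 2)) :=
  (integrable_exp_neg_mul_sq (by norm_num : (0 : ℝ) < 1 / 8)).const_mul C

theorem dom_int2 (K R : ℝ) (hK : 0 < K) :
    Integrable (fun s : ℝ => (1 + s ^ 2) * (K * Real.exp (-(max 0 (|s| - R)) ^ 2 / 2))) := by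
  refine (int_gauss (8 * K * Real.exp (R ^ 2 / 2))).mono' ?_ ?_
  · have : Continuous (fun s : ℝ =>
        (1 + s ^ 2) * (K * Real.exp (-(max 0 (|s| - R)) ^ 2 / 2))) := by fun_prop
    exact this.aestronglyMeasurable
  · refine Filter.Eventually.of_forall fun s => ?_
    rw [Real.norm_of_nonneg (by positivity)]
    exact dom_bound K R s hK

theorem dom_int0 (K R : ℝ) (hK : 0 < K) :
    Integrable (fun s : ℝ => K * Real.exp (-(max 0 (|s| - R)) ^ 2 / 2)) := by
  refine (int_gauss (8 * K * Real.exp (R ^ 2 / 2))).mono' ?_ ?_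
  · have : Continuous (fun s : ℝ => K * Real.exp (-(max 0 (|s| - R)) ^ 2 / 2)) := by fun_prop
    exact this.aestronglyMeasurable
  · refine Filter.Eventually.of_forall fun s => ?_
    rw [Real.norm_of_nonneg (by positivity)]
    refine le_trans ?_ (dom_bound K R s hK)
    have h1 : 0 ≤ K * Real.exp (-(max 0 (|s| - R)) ^ 2 / 2) := by positivity
    nlinarith [mul_nonneg (sq_nonneg s) h1]

theorem trc_lc {T : ℝ} {h : ℝ → ℝ} (hh : LC1 h) : LC1 (trc T h) := by
  refine ⟨fun s => indicator_nonneg (fun s _ => hh.nonneg s) s,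
    hh.meas.indicator measurableSet_Icc, ?_⟩
  intro x y t ht0 ht1
  have hn : 0 ≤ trc T h ((1 - t) * x + t * y) := indicator_nonneg (fun s _ => hh.nonneg s) _
  by_cases hx : x ∈ Icc (-T) T
  · by_cases hy : y ∈ Icc (-T) T
    · have hz : (1 - t) * x + t * y ∈ Icc (-T) T := by
        obtain ⟨hx1, hx2⟩ := hx
        obtain ⟨hy1, hy2⟩ := hy
        constructor <;> nlinarith
      have e1 : trc T h x = h x := indicator_of_mem hx _
      have e2 : trc T h y = h y := indicator_of_mem hy _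
      have e3 : trc T h ((1 - t) * x + t * y) = h ((1 - t) * x + t * y) := indicator_of_mem hz _
      rw [e1, e2, e3]
      exact hh.lc x y t ht0 ht1
    · have e2 : trc T h y = 0 := indicator_of_notMem hy _
      rw [e2, Real.zero_rpow ht0.ne', mul_zero]
      exact hn
  · have e1 : trc T h x = 0 := indicator_of_notMem hx _
    rw [e1, Real.zero_rpow (by linarith), zero_mul]
    exact hn

theorem ilc (hI : S_IGD) : S_ILC := by
  obtain ⟨K, hK, hI⟩ := hI
  refine ⟨K, hK, ?_⟩
  -- compactly supported densities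
  have step1 : ∀ (n : ℕ) (R : Fin n → Fin n → Prop) (h : ℝ → ℝ) (T : ℝ), LC1 h → 0 < T →
      (∀ s, T < |s| → h s = 0) → 0 < ∫ s, h s → 0 < ∫ x, wR R h x →
      ∀ (f : Eu (Fin n) → ℝ) (L M : ℝ), Sm f L M → (∀ x, |f x| ≤ 1 / 2) →
      VW (wR R h) f ≤ K * Real.sqrt (vh h) * EW (wR R h) fun x => ‖fderiv ℝ f x‖ := by
    intro n R h T hh hT hs hp1 hpos f L M hf hf2
    obtain ⟨H, K', hK', hGD, hbd, E, hE, hlim⟩ := Pool.Agent.Y333.RG.reg h T hh hT hs hp1
    have hd : Dm H h (fun s => K' * Real.exp (-(max 0 (|s| - T)) ^ 2 / 2)) :=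
      { hm := hh.meas
        Hm := fun j => (cont_GD (hGD j)).measurable
        H0 := fun j s => ((hGD j).pos s).le
        h0 := hh.nonneg
        HD := hbd
        i0 := dom_int0 K' T hK'
        i2 := dom_int2 K' T hK'
        lim := by
          filter_upwards [hE.countable.ae_notMem volume] with s hs
          exact hlim s hs }
    refine limit hd R hpos hp1 K f L M hf ?_
    filter_upwards [(lim_mass hd R).eventually (lt_mem_nhds hpos)] with j hj
    exact hI n R (H j) (hGD j) hj f L M hf hf2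
  intro n R h hh hint hp1 hpos f L M hf hf2
  have hint0 : Integrable h := by
    refine hint.mono' hh.meas.aestronglyMeasurable (Filter.Eventually.of_forall fun s => ?_)
    rw [Real.norm_of_nonneg (hh.nonneg s)]
    have := mul_nonneg (sq_nonneg s) (hh.nonneg s)
    linarith
  have hd : Dm (fun j => trc ((j : ℝ) + 1) h) h h :=
    { hm := hh.meas
      Hm := fun j => (trc_lc hh).meas
      H0 := fun j => (trc_lc hh).nonneg
      h0 := hh.nonneg
      HD := fun j s => indicator_le_self' (fun s _ => hh.nonneg s) s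
      i0 := hint0
      i2 := hint
      lim := by
        refine Filter.Eventually.of_forall fun s => ?_
        refine tendsto_const_nhds.congr' ?_
        filter_upwards [eventually_ge_atTop ⌈|s|⌉₊] with j hj
        have h1 : |s| ≤ (j : ℝ) + 1 := by
          have := Nat.le_ceil |s|
          have h2 : (⌈|s|⌉₊ : ℝ) ≤ j := by exact_mod_cast hj
          linarith
        have hmem : s ∈ Icc (-((j : ℝ) + 1)) ((j : ℝ) + 1) := abs_le.1 h1
        exact (indicator_of_mem hmem h).symm }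
  refine limit hd R hpos hp1 K f L M hf ?_
  have hm1 : Tendsto (fun j : ℕ => ∫ s, trc ((j : ℝ) + 1) h s) atTop (𝓝 (∫ s, h s)) := by
    have := lim_one hd (fun _ => 1) continuous_const (fun s => by
      rw [abs_one]; nlinarith [sq_nonneg s])
    simpa using this
  filter_upwards [(lim_mass hd R).eventually (lt_mem_nhds hpos),
    hm1.eventually (lt_mem_nhds hp1)] with j hj hj1
  refine step1 n R _ ((j : ℝ) + 1) (trc_lc hh) (by positivity) (fun s hs => ?_) hj1 hj f L M hf hf2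
  have hmem : s ∉ Icc (-((j : ℝ) + 1)) ((j : ℝ) + 1) :=
    fun hmem => absurd (abs_le.2 hmem) (not_le.2 hs)
  exact indicator_of_notMem hmem h

end Pool.Agent.R62.OPL
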